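import Pool.Agent.Helper47.FLG.Fun

/-!
# Project FLG (MP_c98eff_gt), packet BEF: before the first bad time.
-/

namespace Pool.Agent.Helper77.FLG

open Finset Pool.Agent.Helper47.RFn Pool.Agent.Helper73.RFn Pool.Agent.Helper47.FLG

theorem smFam_mono' {n : ℕ} {I J : Set ℝ} (h : J ⊆ I) {f : ℝ → EE n → ℝ} (hf : SmFam I f) : SmFam J f :=
  ⟨fun t ht => hf.sm t (h ht), fun w => (hf.cont w).mono (Set.prod_mono h subset_rfl)⟩

theorem smFam1_mono' {n : ℕ} {I J : Set ℝ} (h : J ⊆ I) {f f' : ℝ → EE n → ℝ} (hf : SmFam1 I f f') :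
    SmFam1 J f f' :=
  ⟨smFam_mono' h hf.fam, smFam_mono' h hf.fam', fun w x hx t ht => (hf.der w x hx t (h ht)).mono h⟩

theorem fflow_mono' {n : ℕ} {I J : Set ℝ} (h : J ⊆ I) {A θ : ℝ → MF n} (hf : FFlow I A θ) : FFlow J A θ :=
  ⟨fun t ht => hf.inv t (h ht), fun t ht => hf.nA t (h ht), fun a i => smFam1_mono' h (hf.flA a i),
    fun i a => smFam1_mono' h (hf.flt i a)⟩

/-- continuity in time at a fixed point -/
theorem cont_time {n : ℕ} {I : Set ℝ} {f : ℝ → EE n → ℝ} (hf : SmFam I f) {x : EE n} (hx : x ≠ 0) :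
    ContinuousOn (fun t => f t x) I := by
  have h1 : ContinuousOn (fun p : ℝ × EE n => f p.1 p.2) (I ×ˢ {0}ᶜ) := hf.cont []
  exact h1.comp (f := fun t : ℝ => ((t, x) : ℝ × EE n)) (by fun_prop)
    fun t ht => ⟨ht, by simpa using hx⟩

theorem pow_small' {C μ σ y : ℝ} (hC : 0 < C) (hμ : 0 < μ) (hσ : 0 < σ) (hy : (C / μ) ^ (2 / σ) ≤ y) :
    C * y ^ (-(σ / 2)) ≤ μ := by
  have h0 : 0 < C / μ := div_pos hC hμ
  have h1 : 0 < (C / μ) ^ (2 / σ) := Real.rpow_pos_of_pos h0 _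
  have hy0 : 0 < y := lt_of_lt_of_le h1 hy
  have h2 : C / μ ≤ y ^ (σ / 2) := by
    have h3 : ((C / μ) ^ (2 / σ)) ^ (σ / 2) ≤ y ^ (σ / 2) :=
      Real.rpow_le_rpow h1.le hy (by linarith)
    rw [← Real.rpow_mul h0.le] at h3
    have h4 : 2 / σ * (σ / 2) = 1 := by field_simp
    rwa [h4, Real.rpow_one] at h3
  rw [Real.rpow_neg hy0.le, ← div_eq_mul_inv, div_le_iff₀ (Real.rpow_pos_of_pos hy0 _)]
  rw [div_le_iff₀ hμ] at h2
  linarith

/-- entries of an isometry -/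
theorem iso_le {n : ℕ} {ν : Ix n → ℝ} {ι : Ix n → Fin n → ℝ} (h : Iso ν ι) (i : Ix n) (a : Fin n) :
    |ι i a| ≤ 1 := by
  have h1 := h.orth a a
  rw [if_pos rfl] at h1
  have h2 : ι i a * ι i a ≤ 1 := by
    rw [← h1]
    exact single_le_sum (f := fun i => ι i a * ι i a) (fun i _ => mul_self_nonneg _) (mem_univ i)
  rw [abs_le]
  constructor <;> nlinarith

theorem pull_le {n : ℕ} {ν : Ix n → ℝ} {ι : Ix n → Fin n → ℝ} (h : Iso ν ι) (E : T4 (n + 1)) (K : ℝ)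
    (hE : ∀ i j k l, |E i j k l| ≤ K) (a b c d : Fin n) : |pull ι E a b c d| ≤ ((n : ℝ) + 1) ^ 4 * K := by
  have hK : 0 ≤ K := (abs_nonneg _).trans (hE 0 0 0 0)
  have h1 : |pull ι E a b c d| ≤ ∑ _i : Ix n, ∑ _j : Ix n, ∑ _k : Ix n, ∑ _l : Ix n, K := by
    unfold pull
    refine (abs_sum_le_sum_abs _ _).trans (sum_le_sum fun i _ => ?_)
    refine (abs_sum_le_sum_abs _ _).trans (sum_le_sum fun j _ => ?_)
    refine (abs_sum_le_sum_abs _ _).trans (sum_le_sum fun k _ => ?_)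
    refine (abs_sum_le_sum_abs _ _).trans (sum_le_sum fun l _ => ?_)
    rw [abs_mul, abs_mul, abs_mul, abs_mul]
    have e1 : |E i j k l| * |ι i a| ≤ K * 1 := mul_le_mul (hE _ _ _ _) (iso_le h i a) (abs_nonneg _) hK
    have e2 : |E i j k l| * |ι i a| * |ι j b| ≤ K * 1 * 1 :=
      mul_le_mul e1 (iso_le h j b) (abs_nonneg _) (by linarith)
    have e3 : |E i j k l| * |ι i a| * |ι j b| * |ι k c| ≤ K * 1 * 1 * 1 :=
      mul_le_mul e2 (iso_le h k c) (abs_nonneg _) (by linarith)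
    have e4 : |E i j k l| * |ι i a| * |ι j b| * |ι k c| * |ι l d| ≤ K * 1 * 1 * 1 * 1 :=
      mul_le_mul e3 (iso_le h l d) (abs_nonneg _) (by linarith)
    linarith
  refine h1.trans (le_of_eq ?_)
  simp only [sum_const, card_univ, Fintype.card_fin, nsmul_eq_mul]
  push_cast
  ring

/-- nearly round tensors have no almost null pairs -/
theorem not_null (hRP2 : Goal_RP2) (hRP3 : Goal_RP3) (hRP4 : Goal_RP4) (hLN : Goal_LN) (hFRF : Goal_FRF)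
    {n : ℕ} (hn : 4 ≤ n) {A θ : MF n} (hfrm : Frm A θ) {y : EE n} (hy : y ≠ 0) {μ : ℝ}
    (hμ : (n : ℝ) ^ 4 * (((n : ℝ) + 1) ^ 4 * (2 * μ)) ≤ 1 / (4 * n)) (hlam : 0 < lamf A θ y)
    (hE : ∀ a b c d, |Ef A θ a b c d y| ≤ 2 * μ * lamf A θ y) :
    ¬ NQF (1 / (4 * (n : ℝ))) A θ y := by
  rintro ⟨ι, hι, z, w, hI, hq⟩
  have hn' : (4 : ℝ) ≤ n := by exact_mod_cast hn
  obtain ⟨-, -, -, -, -, -, -, -, -, -, -, -, -, f1, f2, -⟩ := hFRF n A θ hfrm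
  obtain ⟨r1, r2, -, -, r5, r6, r7, r8, -⟩ := hRP3 n _ ι hι
  set ν : Ix n → ℝ := fun a => nfc A a y with hν
  have hR : Hor ν (RT A θ y) := ⟨f1 y hy, f2 y hy⟩
  let E : T4 (n + 1) := fun a b c d => Ef A θ a b c d y
  have hRE : RT A θ y = (1 / ((n : ℝ) - 1) * lamf A θ y) • wdg (Pm ν) (Pm ν) + E := by
    funext a b c d
    simp only [Pi.add_apply, Pi.smul_apply, smul_eq_mul, E, RT, Ef, wdg, Pm, Pff, hν]
    ring
  have hEE : E = RT A θ y + (-(1 / ((n : ℝ) - 1) * lamf A θ y)) • wdg (Pm ν) (Pm ν) := by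
    rw [hRE, neg_smul]
    abel
  have hEH : Hor ν E := by
    rw [hEE]
    exact r7 _ _ hR (r8 _ _ r2)
  have hEc : IsCurv (pull ι E) := (hRP2 n ν ι E hι hEH).1
  have hpull : pull ι (RT A θ y) = (1 / ((n : ℝ) - 1) * lamf A θ y) • Id4 n + pull ι E := by
    rw [hRE, r5, r6, r1]
  obtain ⟨l1, l2, -⟩ := hLN n
  rw [hpull, l1, l2] at hq
  have hb := (hRP4 n).2.2 (pull ι E) (((n : ℝ) + 1) ^ 4 * (2 * μ * lamf A θ y)) hEc
    (fun a b c d => pull_le hι E _ hE a b c d) z w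
  have hI0 : 0 ≤ qf (Id4 n) z w := by
    have h0 : IsCurv (0 : T4 n) := ⟨fun _ _ _ _ => by simp, fun _ _ _ _ => by simp, fun _ _ _ _ => by simp,
      fun _ _ _ _ => by simp⟩
    have h1 := (hRP4 n).2.2 0 1 h0 (fun _ _ _ _ => by simp) z w
    have h2 : 0 ≤ (n : ℝ) ^ 4 * 1 * qf (Id4 n) z w := (abs_nonneg _).trans h1
    have h3 : (0 : ℝ) < (n : ℝ) ^ 4 * 1 := by positivity
    exact nonneg_of_mul_nonneg_right h2 h3
  have hIp : 0 < qf (Id4 n) z w := lt_of_le_of_ne hI0 (Ne.symm hI)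
  generalize qf (Id4 n) z w = q at hq hb hI0 hIp
  generalize qf (pull ι E) z w = e at hq hb
  generalize lamf A θ y = L at hq hb hlam
  have hLq : 0 < L * q := mul_pos hlam hIp
  have h1 : (n : ℝ) ^ 4 * (((n : ℝ) + 1) ^ 4 * (2 * μ * L)) * q ≤ 1 / (4 * n) * (L * q) := by
    have := mul_le_mul_of_nonneg_right hμ hLq.le
    linarith
  have h2 := (abs_le.1 hb).1
  have h3 : 1 / ((n : ℝ) - 1) * (L * q) ≤ 2 * (1 / (4 * n)) * (L * q) := by linarith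
  have h4 : 1 / ((n : ℝ) - 1) ≤ 2 * (1 / (4 * n)) := le_of_mul_le_mul_right h3 hLq
  rw [mul_one_div, div_le_div_iff₀ (by linarith) (by linarith)] at h4
  linarith

end Pool.Agent.Helper77.FLG

namespace Pool.Agent.Helper47.FLG

open Finset Pool.Agent.Helper47.RFn Pool.Agent.Helper73.RFn Pool.Agent.Helper77.FLG

theorem p_BEF (hONF : OnfStmt) (hQCT : Pool.Agent.Helper64.RFn.QCTn) (hFHM : FhmStmt) (hFRF : Goal_FRF)
    (hRP2 : Goal_RP2) (hRP3 : Goal_RP3) (hRP4 : Goal_RP4) (hLN : Goal_LN) : BefStmt := by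
  intro n C σ hn hC hσ hσ1
  have hn' : (4 : ℝ) ≤ n := by exact_mod_cast hn
  obtain ⟨C', hC', hO⟩ := hONF n C σ hn hC hσ hσ1
  set μ : ℝ := 1 / (8 * (n : ℝ) ^ 5 * ((n : ℝ) + 1) ^ 4) with hμ
  have hμ0 : 0 < μ := by positivity
  have hμ1 : μ ≤ 1 / 2 := by
    rw [hμ]
    apply one_div_le_one_div_of_le (by norm_num)
    have h1 : (1 : ℝ) ≤ (n : ℝ) ^ 5 := one_le_pow₀ (by linarith)
    have h2 : (1 : ℝ) ≤ ((n : ℝ) + 1) ^ 4 := one_le_pow₀ (by linarith)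
    nlinarith
  have hμ2 : (n : ℝ) ^ 4 * (((n : ℝ) + 1) ^ 4 * (2 * μ)) ≤ 1 / (4 * n) := by
    rw [hμ]
    apply le_of_eq
    field_simp
    ring
  refine ⟨2 * max C' ((C' / μ) ^ (2 / σ)), ?_, ?_⟩
  · have := le_max_left C' ((C' / μ) ^ (2 / σ))
    linarith
  set A2 : ℝ := 2 * max C' ((C' / μ) ^ (2 / σ)) with hA2
  intro T s l0 A θ hs hsT hl0 hF hG hlow hnull
  have hT : 0 < T := hs.trans hsT
  have hFs : FFlow (Set.Ico 0 s) A θ := fflow_mono' (Set.Ico_subset_Ico_right hsT.le) hF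
  obtain ⟨g1, -, -, g4, g5, -⟩ := (hFHM n).2 (Set.Ico 0 T) A θ hF
  obtain ⟨Q, hQc, hQm⟩ := hQCT n T A θ hT hF
  have hQle : ∀ t, 0 ≤ t → t < T → ∀ x, x ≠ 0 → lamf (A t) (θ t) x ≤ Q t := fun t h0 h1 => (hQm t h0 h1).1
  have hQat : ∀ t, 0 ≤ t → t < T → ∃ p, p ≠ 0 ∧ lamf (A t) (θ t) p = Q t := fun t h0 h1 => (hQm t h0 h1).2
  -- one time
  have hbig : ∀ q : ℝ, A2 / 2 ≤ q → C' ≤ q ∧ C' * q ^ (-(σ / 2)) ≤ μ := by
    intro q hq
    have h1 : A2 / 2 = max C' ((C' / μ) ^ (2 / σ)) := by rw [hA2]; ring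
    rw [h1] at hq
    exact ⟨(le_max_left _ _).trans hq, pow_small' (by linarith) hμ0 hσ ((le_max_right _ _).trans hq)⟩
  have hone : ∀ t, 0 < t → t < s → A2 / 2 ≤ t * Q t → ∀ x, x ≠ 0 → Q t / 2 ≤ lamf (A t) (θ t) x ∧
      ∀ a b c d, |Ef (A t) (θ t) a b c d x| ≤ 2 * μ * lamf (A t) (θ t) x := by
    intro t h0 h1 h2 x hx
    obtain ⟨h3, h4⟩ := hbig _ h2
    have hQ0 : 0 < Q t := by
      obtain ⟨p, hp, hpQ⟩ := hQat t h0.le (h1.trans hsT)
      have := (hlow t h0.le (h1.trans hsT) p hp).1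
      linarith
    obtain ⟨h5, h6⟩ := hO s l0 A θ hs hl0 hFs hG (fun t ht0 ht1 x hx => (hlow t ht0.le (ht1.trans hsT) x hx).2) t
      (Q t) h0 h1 (hQle t h0.le (h1.trans hsT)) (hQat t h0.le (h1.trans hsT)) h3 x hx
    have h7 : 1 / 2 * Q t ≤ (1 - C' * (t * Q t) ^ (-(σ / 2))) * Q t :=
      mul_le_mul_of_nonneg_right (by linarith) hQ0.le
    refine ⟨by linarith, fun a b c d => (h6 a b c d).trans ?_⟩
    have h8 : C' * (t * Q t) ^ (-(σ / 2)) * Q t ≤ μ * Q t := mul_le_mul_of_nonneg_right h4 hQ0.le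
    have h9 : μ * Q t ≤ μ * (2 * lamf (A t) (θ t) x) := mul_le_mul_of_nonneg_left (by linarith) hμ0.le
    linarith
  intro t ht hts x hx
  by_contra hcon
  rw [not_le] at hcon
  -- a time before s
  obtain ⟨t1, ht10, ht1s, hlt⟩ : ∃ t1, 0 < t1 ∧ t1 < s ∧ A2 < t1 * lamf (A t1) (θ t1) x := by
    rcases hts.lt_or_eq with h | h
    · exact ⟨t, ht, h, hcon⟩
    · have hc : ContinuousOn (fun r => r * lamf (A r) (θ r) x) (Set.Ico 0 T) :=
        continuousOn_id.mul (cont_time g4 hx)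
      have hsI : s ∈ Set.Ico 0 T := ⟨hs.le, hsT⟩
      have h1 : ∀ᶠ r in nhdsWithin s (Set.Ico 0 T), A2 < r * lamf (A r) (θ r) x := by
        have h2 := (hc s hsI).eventually_const_lt (show A2 < s * lamf (A s) (θ s) x by rw [← h]; exact hcon)
        exact h2
      have h2 : nhdsWithin s (Set.Ioo 0 s) ≤ nhdsWithin s (Set.Ico 0 T) :=
        nhdsWithin_mono _ fun r hr => ⟨hr.1.le, hr.2.trans hsT⟩
      have h3 : (nhdsWithin s (Set.Ioo 0 s)).NeBot := by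
        rw [← mem_closure_iff_nhdsWithin_neBot, closure_Ioo hs.ne]
        exact ⟨hs.le, le_rfl⟩
      obtain ⟨r, hr1, hr2⟩ := ((h1.filter_mono h2).and self_mem_nhdsWithin).exists
      exact ⟨r, hr2.1, hr2.2, hr1⟩
  have ht1T : t1 < T := ht1s.trans hsT
  have hA20 : 0 < A2 := by
    have := le_max_left C' ((C' / μ) ^ (2 / σ))
    rw [hA2]
    linarith
  have hq1 : A2 < t1 * Q t1 := hlt.trans_le (mul_le_mul_of_nonneg_left (hQle t1 ht10.le ht1T x hx) ht10.le)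
  have hQ1 : 0 < Q t1 := by
    by_contra h
    have : t1 * Q t1 ≤ 0 := mul_nonpos_of_nonneg_of_nonpos ht10.le (not_lt.1 h)
    linarith
  have hl1 : ∀ x, x ≠ 0 → Q t1 / 2 ≤ lamf (A t1) (θ t1) x := fun x hx => (hone t1 ht10 ht1s (by linarith) x hx).1
  have hs2 := (hG.s2 t1 (Q t1 / 2) ht10 ht1s (by linarith) hl1).1
  have hlate : ∀ r, t1 ≤ r → r < s → A2 / 2 ≤ r * Q r := by
    intro r h0 h1
    have hr0 : 0 < r := ht10.trans_le h0
    obtain ⟨p, hp, hpQ⟩ := hQat r hr0.le (h1.trans hsT)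
    have h2 := hs2 r h0 h1 p hp
    rw [hpQ] at h2
    have h4 : t1 * (Q t1 / 2) ≤ r * Q r := mul_le_mul h0 h2 (by linarith) hr0.le
    linarith
  -- the limit
  obtain ⟨y, hy, hyN⟩ := hnull
  have hsT' : s ∈ Set.Ico 0 T := ⟨hs.le, hsT⟩
  have h3 : (nhdsWithin s (Set.Ioo t1 s)).NeBot := by
    rw [← mem_closure_iff_nhdsWithin_neBot, closure_Ioo ht1s.ne]
    exact ⟨ht1s.le, le_rfl⟩
  have hsub : nhdsWithin s (Set.Ioo t1 s) ≤ nhdsWithin s (Set.Ico 0 T) :=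
    nhdsWithin_mono _ fun r hr => ⟨(ht10.trans hr.1).le, hr.2.trans hsT⟩
  have hEs : ∀ a b c d, |Ef (A s) (θ s) a b c d y| ≤ 2 * μ * lamf (A s) (θ s) y := by
    intro a b c d
    have c1 : Filter.Tendsto (fun r => |Ef (A r) (θ r) a b c d y|) (nhdsWithin s (Set.Ioo t1 s))
        (nhds |Ef (A s) (θ s) a b c d y|) := (((cont_time (g5 a b c d) hy) s hsT').abs).mono_left hsub
    have c2 : Filter.Tendsto (fun r => 2 * μ * lamf (A r) (θ r) y) (nhdsWithin s (Set.Ioo t1 s))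
        (nhds (2 * μ * lamf (A s) (θ s) y)) := (((cont_time g4 hy) s hsT').const_mul (2 * μ)).mono_left hsub
    refine le_of_tendsto_of_tendsto c1 c2 ?_
    filter_upwards [self_mem_nhdsWithin] with r hr
    exact (hone r (ht10.trans hr.1) hr.2 (hlate r hr.1.le hr.2) y hy).2 a b c d
  have hlams : 0 < lamf (A s) (θ s) y := hl0.trans_le (hlow s hs.le hsT y hy).1
  exact not_null hRP2 hRP3 hRP4 hLN hFRF hn (g1 s hsT') hy hμ2 hlams hEs hyN

end Pool.Agent.Helper47.FLG
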