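import Pool.Agent.Helper47.FLG.Alg2

/-!
# Project FLG (MP_c98eff_gt), packet FGS: start of the chain of cones.
-/

namespace Pool.Agent.Helper77.FLG

open Finset Pool.Agent.Helper47.RFn Pool.Agent.Helper47.FLG

theorem abs_rq_le {n : ℕ} (A : M2 n) (k : ℝ) (hA : ∀ i j, |A i j| ≤ k) (v : Fin n → ℝ) :
    |rq A v| ≤ n * k * nrm v := by
  have h1 : |rq A v| ≤ ∑ i : Fin n, ∑ j : Fin n, k * ((v i ^ 2 + v j ^ 2) / 2) := by
    unfold rq
    refine (abs_sum_le_sum_abs _ _).trans (sum_le_sum fun i _ => ?_)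
    refine (abs_sum_le_sum_abs _ _).trans (sum_le_sum fun j _ => ?_)
    have e : A i j * v i * v j = A i j * (v i * v j) := by ring
    rw [e, abs_mul]
    have hk : 0 ≤ k := (abs_nonneg _).trans (hA i j)
    have h2 : |v i * v j| ≤ (v i ^ 2 + v j ^ 2) / 2 := by
      rw [abs_le]
      constructor <;> nlinarith [sq_nonneg (v i - v j), sq_nonneg (v i + v j)]
    exact mul_le_mul (hA i j) h2 (abs_nonneg _) hk
  refine h1.trans (le_of_eq ?_)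
  have h3 : ∀ i : Fin n, ∑ j : Fin n, k * ((v i ^ 2 + v j ^ 2) / 2) = k * (n * v i ^ 2 + nrm v) / 2 := by
    intro i
    rw [← mul_sum, ← sum_div, sum_add_distrib, sum_const, card_univ, Fintype.card_fin, nsmul_eq_mul]
    unfold nrm
    ring
  rw [sum_congr rfl fun i _ => h3 i, ← sum_div, ← mul_sum, sum_add_distrib, ← mul_sum, sum_const, card_univ,
    Fintype.card_fin, nsmul_eq_mul]
  unfold nrm
  ring

theorem elli_eq {n : ℕ} (a b : ℝ) (R : T4 n) : elli a b R =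
    R + (-(2 * a / (1 + 2 * ((n : ℝ) - 1) * a) * lam R)) • Id4 n +
      (-(2 * b / (1 + ((n : ℝ) - 2) * b))) • wdg (Ric0 R) 1 := by
  unfold elli
  rw [neg_smul, neg_smul]
  abel

/-- the bounds for the parameters -/
theorem param {n : ℕ} (hn : 4 ≤ n) {b : ℝ} (hb : 0 < b) (hb1 : b ≤ 1 / 2) :
    0 ≤ aF n b ∧ aF n b ≤ n * b ∧ 0 ≤ pF n b ∧ pF n b ≤ n * b ∧ pF n b ≤ 1 := by
  have hn' : (4 : ℝ) ≤ n := by exact_mod_cast hn
  have h0 : 0 ≤ ((n : ℝ) - 2) * b ^ 2 := by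
    have : (0 : ℝ) ≤ (n : ℝ) - 2 := by linarith
    positivity
  have hbb : b ^ 2 ≤ b * (1 / 2) := by nlinarith
  have h1 : ((n : ℝ) - 2) * b ^ 2 ≤ ((n : ℝ) - 2) * (b * (1 / 2)) :=
    mul_le_mul_of_nonneg_left hbb (by linarith)
  have hnb : 0 ≤ (n : ℝ) * b := by positivity
  refine ⟨?_, ?_, ?_, ?_, ?_⟩
  · unfold aF
    apply div_nonneg <;> nlinarith
  · unfold aF
    rw [div_le_iff₀ (by nlinarith)]
    have : 0 ≤ (n : ℝ) * b * (((n : ℝ) - 2) * b ^ 2) := mul_nonneg hnb h0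
    nlinarith
  · unfold pF
    apply div_nonneg <;> nlinarith
  · unfold pF
    rw [div_le_iff₀ (by nlinarith)]
    have : 0 ≤ (n : ℝ) * b * (((n : ℝ) - 2) * b ^ 2) := mul_nonneg hnb h0
    nlinarith
  · unfold pF
    rw [div_le_iff₀ (by nlinarith)]
    nlinarith

theorem coef1 {n a b : ℝ} (hn : 4 ≤ n) (a0 : 0 ≤ a) (a1 : a ≤ n * b) :
    1 ≤ 1 + 2 * (n - 1) * a ∧ 0 ≤ 2 * a / (1 + 2 * (n - 1) * a) ∧ 2 * a / (1 + 2 * (n - 1) * a) ≤ 2 * n * b := by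
  have h0 : 0 ≤ 2 * (n - 1) * a := by
    have : (0 : ℝ) ≤ n - 1 := by linarith
    positivity
  refine ⟨by linarith, div_nonneg (by linarith) (by linarith), ?_⟩
  rw [div_le_iff₀ (by linarith)]
  have h1 : 0 ≤ n * b := a0.trans a1
  have h2 : 0 ≤ n * b * (2 * (n - 1) * a) := mul_nonneg h1 h0
  linarith

theorem coef2 {n b : ℝ} (hn : 4 ≤ n) (hb : 0 < b) :
    0 ≤ 2 * b / (1 + (n - 2) * b) ∧ 2 * b / (1 + (n - 2) * b) ≤ 2 * b := by
  have h0 : 0 ≤ (n - 2) * b := by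
    have : (0 : ℝ) ≤ n - 2 := by linarith
    positivity
  refine ⟨div_nonneg (by linarith) (by linarith), ?_⟩
  rw [div_le_iff₀ (by linarith)]
  have : 0 ≤ b * ((n - 2) * b) := mul_nonneg hb.le h0
  linarith

theorem real1 {n b L q qA qR C1 C2 : ℝ} (hn : 4 ≤ n) (hb : 0 < b) (hL : 0 ≤ L) (hq : 0 ≤ q)
    (hA : qA ≤ 2 * n ^ 3 * L * q) (hC1 : C1 ≤ 2 * n * b) (c2 : 0 ≤ C2) (hC2 : C2 ≤ 2 * b) :
    qR - (2 * n + 4 * n ^ 3) * b * L * q ≤ qR + -(C1 * L) * q + -C2 * qA := by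
  have e1 : C1 * (L * q) ≤ 2 * n * b * (L * q) := mul_le_mul_of_nonneg_right hC1 (mul_nonneg hL hq)
  have hp3 : 0 ≤ 2 * n ^ 3 * L * q := by positivity
  have e2 : C2 * qA ≤ 2 * b * (2 * n ^ 3 * L * q) :=
    (mul_le_mul_of_nonneg_left hA c2).trans (mul_le_mul_of_nonneg_right hC2 hp3)
  linarith

theorem real2 {n b L v r rA C1 C2 p N : ℝ} (hn : 4 ≤ n) (hb : 0 < b) (hL : 0 ≤ L) (hv : 0 ≤ v)
    (hA : rA ≤ 2 * n ^ 3 * L * v) (hC1 : C1 ≤ 2 * n * b) (c2 : 0 ≤ C2) (hC2 : C2 ≤ 2 * b)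
    (p1 : p ≤ n * b) (hN : 1 ≤ N) (hr : L / 16 * v ≤ r)
    (hb2 : (n + 2 * n ^ 2 + 2 * n ^ 4) * b ≤ 1 / 16) :
    p * (L / N) * v ≤ r + -(C1 * L) * ((n - 1) * v) + -C2 * ((n - 2) / 2 * rA + 0 / 2 * v) := by
  have hp4 : 0 ≤ L * v := mul_nonneg hL hv
  have h1 : L / N ≤ L := div_le_self hL hN
  have h3 : p * (L / N) ≤ n * b * L := mul_le_mul p1 h1 (div_nonneg hL (by linarith)) (by positivity)
  have h2 := mul_le_mul_of_nonneg_right h3 hv
  have e1 : C1 * ((n - 1) * (L * v)) ≤ 2 * n * b * (n * (L * v)) := by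
    refine mul_le_mul hC1 ?_ ?_ (by positivity)
    · exact mul_le_mul_of_nonneg_right (by linarith) hp4
    · have : (0 : ℝ) ≤ n - 1 := by linarith
      positivity
  have hp5 : 0 ≤ 2 * n ^ 3 * L * v := by positivity
  have g1 : (n - 2) / 2 * rA ≤ n / 2 * (2 * n ^ 3 * L * v) :=
    (mul_le_mul_of_nonneg_left hA (by linarith)).trans (mul_le_mul_of_nonneg_right (by linarith) hp5)
  have e2 : C2 * ((n - 2) / 2 * rA) ≤ 2 * b * (n / 2 * (2 * n ^ 3 * L * v)) :=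
    (mul_le_mul_of_nonneg_left g1 c2).trans (mul_le_mul_of_nonneg_right hC2 (by positivity))
  have e4 : (n + 2 * n ^ 2 + 2 * n ^ 4) * b * (L * v) ≤ 1 / 16 * (L * v) :=
    mul_le_mul_of_nonneg_right hb2 hp4
  linarith

theorem main (hFG2 : G_FG2) (hLN : Goal_LN) (hWQ : Goal_WQ) (hCL : Goal_CL) (hLI : Goal_LI) {n : ℕ} (hn : 4 ≤ n)
    {b : ℝ} (hb : 0 < b) (hb1 : b ≤ 1 / 2) (hb2 : ((n : ℝ) + 2 * n ^ 2 + 2 * n ^ 4) * b ≤ 1 / 16)
    (R : T4 n) (hR : FG R) :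
    (∀ z w, 0 ≤ qf (Id4 n) z w) ∧
    (∀ z w, qf R z w - (2 * (n : ℝ) + 4 * n ^ 3) * b * lam R * qf (Id4 n) z w ≤ qf (elli (aF n b) b R) z w) ∧
      RicGe (pF n b) (elli (aF n b) b R) := by
  obtain ⟨f1, -, -, -, -, f6, -, f8, -⟩ := hFG2 n hn R hR
  obtain ⟨l1, l2, l3, l4, l5, l6, l7, -, l9, -, l11, l12, l13, l14⟩ := hLN n
  obtain ⟨a0, a1, p0, p1, p2⟩ := param hn hb hb1
  have hn' : (4 : ℝ) ≤ n := by exact_mod_cast hn
  have hs : (Ric0 R).IsSymm := ((hCL n).2.2.2.2.2.2.1 R hR.1).2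
  have hrq : ∀ v, |rq (Ric0 R) v| ≤ 2 * (n : ℝ) ^ 3 * lam R * nrm v := by
    intro v
    refine (abs_rq_le _ _ f8 v).trans (le_of_eq ?_)
    ring
  have hwq := hWQ n (Ric0 R) (-(2 * (n : ℝ) ^ 3 * lam R)) (2 * (n : ℝ) ^ 3 * lam R) hs
    (fun v => by have := (abs_le.1 (hrq v)).1; linarith) (fun v => (abs_le.1 (hrq v)).2)
  -- the coefficients
  obtain ⟨hN, c1, c1'⟩ := coef1 hn' a0 a1
  obtain ⟨c2, c2'⟩ := coef2 hn' hb
  refine ⟨fun z w => (hwq z w).1, fun z w => ?_, fun v => ?_⟩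
  · rw [elli_eq, l1, l1, l2, l2]
    obtain ⟨q0, q1, q2⟩ := hwq z w
    exact real1 hn' hb f1 q0 q2 c1' c2 c2'
  · have htr : (Ric0 R).trace = 0 := l11 R (by omega)
    have hlam : lam (elli (aF n b) b R) = lam R / (1 + 2 * ((n : ℝ) - 1) * aF n b) :=
      (hLI n (by omega) (aF n b) b a0 hb.le R).2.2.2.2.1
    have hv0 : 0 ≤ nrm v := sum_nonneg fun _ _ => sq_nonneg _
    rw [hlam, elli_eq, l3, l3, l4, l4, l9, l7 _ hs, htr, l12, l12, l13, l13, l13, l12, l13, l13, l14]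
    exact real2 hn' hb f1 hv0 ((le_abs_self _).trans (hrq v)) c1' c2 c2' p1 hN (f6 v) hb2

theorem g_FGS (hFG2 : G_FG2) (hNW : G_NW) (hLI : Goal_LI) (hLN : Goal_LN) (hWQ : Goal_WQ) (hCL : Goal_CL) :
    G_FGS := by
  intro n hn ε1 hε1 ξ hξ
  have hn' : (4 : ℝ) ≤ n := by exact_mod_cast hn
  set k1 : ℝ := 2 * (n : ℝ) + 4 * n ^ 3 with hk1
  set k2 : ℝ := (n : ℝ) + 2 * n ^ 2 + 2 * n ^ 4 with hk2
  have k1p : 0 < k1 := by positivity
  have k2p : 0 < k2 := by positivity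
  refine ⟨min (min (1 / 2) (ε1 / k1)) (min (ξ / (k1 * (1 + n ^ 2))) (1 / 16 / k2)), ?_, ?_, ?_⟩
  · exact lt_min (lt_min (by norm_num) (by positivity)) (lt_min (by positivity) (by positivity))
  · exact (min_le_left _ _).trans (min_le_left _ _)
  set b := min (min (1 / 2) (ε1 / k1)) (min (ξ / (k1 * (1 + (n : ℝ) ^ 2))) (1 / 16 / k2)) with hbdef
  have hb : 0 < b := lt_min (lt_min (by norm_num) (by positivity)) (lt_min (by positivity) (by positivity))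
  have hb1 : b ≤ 1 / 2 := (min_le_left _ _).trans (min_le_left _ _)
  have hb2 : k1 * b ≤ ε1 := by
    have : b ≤ ε1 / k1 := (min_le_left _ _).trans (min_le_right _ _)
    rw [le_div_iff₀ k1p] at this
    linarith
  have hb3 : k1 * b * (1 + (n : ℝ) ^ 2) ≤ ξ := by
    have : b ≤ ξ / (k1 * (1 + (n : ℝ) ^ 2)) := (min_le_right _ _).trans (min_le_left _ _)
    rw [le_div_iff₀ (by positivity)] at this
    linarith
  have hb4 : k2 * b ≤ 1 / 16 := by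
    have : b ≤ 1 / 16 / k2 := (min_le_right _ _).trans (min_le_right _ _)
    rw [le_div_iff₀ k2p] at this
    linarith
  intro R hR
  obtain ⟨m0, m1, m2⟩ := main hFG2 hLN hWQ hCL hLI hn hb hb1 hb4 R hR
  have f1 := (hFG2 n hn R hR).1
  obtain ⟨a0, a1, p0, p1, p2⟩ := param hn hb hb1
  obtain ⟨l1, l2, l3, l4, l5, l6, l7, -, l9, l10, l11, l12, l13, l14⟩ := hLN n
  have hcu := (hCL n).2.2.2.2.2.2.2.1 (aF n b) b
  refine ⟨fun hq => ⟨hR.1, ⟨(hcu R hR.1).2.1, fun z w => ?_⟩, m2⟩, fun β hβ => ?_⟩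
  · have h1 := m1 z w
    have h2 := hq z w
    have h3 : k1 * b * (lam R * qf (Id4 n) z w) ≤ ε1 * (lam R * qf (Id4 n) z w) :=
      mul_le_mul_of_nonneg_right hb2 (mul_nonneg f1 (m0 z w))
    linarith
  · have hβ0 : 0 ≤ β := (mul_nonneg hξ.le f1).trans hβ
    have hc2 : IsCurv (R + β • Id4 n) :=
      (hCL n).2.2.2.1 _ _ hR.1 ((hCL n).2.2.2.2.1 _ _ (hCL n).2.2.1)
    obtain ⟨-, -, -, -, i5, -, i7, i8, i9, -⟩ := hLI n (by omega) (aF n b) b a0 hb.le R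
    have hN : 1 ≤ 1 + 2 * ((n : ℝ) - 1) * aF n b := by
      have : 0 ≤ 2 * ((n : ℝ) - 1) * aF n b := by
        have : (0 : ℝ) ≤ (n : ℝ) - 1 := by linarith
        positivity
      linarith
    have hN2 : 1 + 2 * ((n : ℝ) - 1) * aF n b ≤ 1 + (n : ℝ) ^ 2 := by
      have h1 : ((n : ℝ) - 1) * aF n b ≤ n * (n * b) := mul_le_mul (by linarith) a1 a0 (by linarith)
      have h2 : (n : ℝ) * (n * b) ≤ n * (n * (1 / 2)) := by gcongr
      nlinarith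
    have he : elli (aF n b) b (R + β • Id4 n) =
        elli (aF n b) b R + (β / (1 + 2 * ((n : ℝ) - 1) * aF n b)) • Id4 n := by
      rw [i7, (hLI n (by omega) (aF n b) b a0 hb.le (Id4 n)).2.2.2.2.2.2.2.1, i9, smul_smul]
      congr 2
      ring
    set N := 1 + 2 * ((n : ℝ) - 1) * aF n b with hNdef
    have hγ0 : 0 ≤ β / N := div_nonneg hβ0 (by linarith)
    refine ⟨hc2, ⟨(hcu _ hc2).2.1, fun z w => ?_⟩, fun v => ?_⟩
    · rw [he, l1, l2]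
      have h1 := m1 z w
      have h2 := ((hNW n hn).2.1 R hR).2 z w
      have h3 : k1 * b * lam R ≤ β / N := by
        rw [le_div_iff₀ (by linarith)]
        have h4 : k1 * b * lam R * N ≤ k1 * b * lam R * (1 + (n : ℝ) ^ 2) :=
          mul_le_mul_of_nonneg_left hN2 (by positivity)
        have h5 : k1 * b * (1 + (n : ℝ) ^ 2) * lam R ≤ ξ * lam R := mul_le_mul_of_nonneg_right hb3 f1
        linarith
      have h6 := mul_le_mul_of_nonneg_right h3 (m0 z w)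
      linarith
    · rw [he, l3, l4, l9, l5, l6, l10 (by omega), l12, l13, l13, l14]
      have h1 := m2 v
      have hv0 : 0 ≤ nrm v := sum_nonneg fun _ _ => sq_nonneg _
      have h2 : 0 ≤ β / N * ((n : ℝ) - 1) * nrm v := by
        have : (0 : ℝ) ≤ (n : ℝ) - 1 := by linarith
        positivity
      have h3 : pF n b * (β / N * ((n : ℝ) - 1) * nrm v) ≤ β / N * ((n : ℝ) - 1) * nrm v :=
        mul_le_of_le_one_left h2 p2
      linarith

end Pool.Agent.Helper77.FLG
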